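import Mathlib

/-!
Feit and Thompson divisibility: a quadratic-reciprocity obstruction.

For primes `p < q` with `p ≡ 3 (mod 4)`, if `q ≡ 1 (mod 4)` or the Jacobi symbol
`(p / ((q - 1) / 2))` equals `-1`, then `(q ^ p - 1) / (q - 1)` does not divide
`(p ^ q - 1) / (p - 1)`.
-/

namespace Pool.Agent.Results.MP_470117_nt.QuadraticObstruction

open Finset

/-- the repunit `1 + q + ... + q ^ (k - 1)` -/
def R (q k : ℕ) : ℕ := ∑ i ∈ range k, q ^ i

theorem R_zero (q : ℕ) : R q 0 = 0 := by simp [R]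

theorem R_one (q : ℕ) : R q 1 = 1 := by simp [R]

theorem R_succ (q k : ℕ) : R q (k + 1) = 1 + q * R q k := by
  unfold R
  rw [Finset.sum_range_succ', Finset.mul_sum]
  simp [pow_succ, mul_comm, add_comm]

theorem R_add (q a b : ℕ) : R q (a + b) = R q a + q ^ a * R q b := by
  unfold R
  rw [Finset.sum_range_add, Finset.mul_sum]
  congr 1
  apply Finset.sum_congr rfl
  intro i _
  rw [pow_add]

theorem R_mod4 (q : ℕ) (hq : q % 4 = 3) (k : ℕ) : R q (2 * k + 1) % 4 = 1 ∧ R q (2 * k) % 4 = 0 := by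
  induction k with
  | zero => simp [R_one, R_zero]
  | succ n ih =>
    obtain ⟨h1, h2⟩ := ih
    have e1 : R q (2 * (n + 1)) = 1 + q * R q (2 * n + 1) := by
      rw [show 2 * (n + 1) = (2 * n + 1) + 1 by ring, R_succ]
    have h3 : R q (2 * (n + 1)) % 4 = 0 := by
      rw [e1, Nat.add_mod, Nat.mul_mod, hq, h1]
    refine ⟨?_, h3⟩
    rw [R_succ, Nat.add_mod, Nat.mul_mod, h3]
    simp

theorem R_mod4_odd (q : ℕ) (hq : q % 4 = 3) (k : ℕ) (hk : k % 2 = 1) : R q k % 4 = 1 := by
  have := (R_mod4 q hq (k / 2)).1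
  rwa [show 2 * (k / 2) + 1 = k by omega] at this

theorem sub_one_mul_R (q k : ℕ) : ((q : ℤ) - 1) * (R q k : ℤ) = (q : ℤ) ^ k - 1 := by
  unfold R
  push_cast
  exact mul_geom_sum (q : ℤ) k

theorem J_q (q : ℕ) (hq : q % 4 = 3) (j : ℕ) (hj : j % 2 = 1) :
    jacobiSym (q : ℤ) (R q j) = 1 := by
  have h4 := R_mod4_odd q hq j hj
  rw [jacobiSym.quadratic_reciprocity_one_mod_four' (Nat.odd_iff.mpr (by omega)) h4]
  obtain ⟨k, rfl⟩ : ∃ k, j = k + 1 := ⟨j - 1, by omega⟩
  rw [R_succ]
  rw [jacobiSym.mod_left' (a₂ := 1)]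
  · exact jacobiSym.one_left q
  · push_cast
    rw [Int.add_mul_emod_self_left]

theorem J_neg_one (q : ℕ) (hq : q % 4 = 3) (j : ℕ) (hj : j % 2 = 1) :
    jacobiSym (-1) (R q j) = 1 := by
  have h4 := R_mod4_odd q hq j hj
  rw [jacobiSym.at_neg_one (Nat.odd_iff.mpr (by omega)), ZMod.χ₄_nat_one_mod_four h4]

/-- reflection: if `j = a + k` then `J(R_a | R_j) = J(R_k | R_j)`. -/
theorem J_reflect (q : ℕ) (hq : q % 4 = 3) (j a k : ℕ) (hj : j % 2 = 1) (h : j = k + a) :
    jacobiSym (R q a : ℤ) (R q j) = jacobiSym (R q k : ℤ) (R q j) := by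
  have h1 : jacobiSym ((q : ℤ) ^ k * (R q a : ℤ)) (R q j) = jacobiSym (-1 * (R q k : ℤ)) (R q j) := by
    apply jacobiSym.mod_left'
    have h2 : ((q : ℤ) ^ k * (R q a : ℤ)) = (-1 * (R q k : ℤ)) + (R q j : ℤ) * 1 := by
      have h3 : R q j = R q k + q ^ k * R q a := by rw [h, R_add]
      rw [h3]
      push_cast
      ring
    rw [h2, Int.add_mul_emod_self_left]
  rw [jacobiSym.mul_left, jacobiSym.mul_left, jacobiSym.pow_left, J_q q hq j hj,
    J_neg_one q hq j hj] at h1
  simpa using h1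

/-- periodicity: `J(R_(j + b) | R_j) = J(R_b | R_j)`. -/
theorem J_period (q : ℕ) (hq : q % 4 = 3) (j b : ℕ) (hj : j % 2 = 1) :
    jacobiSym (R q (j + b) : ℤ) (R q j) = jacobiSym (R q b : ℤ) (R q j) := by
  have h1 : jacobiSym (R q (j + b) : ℤ) (R q j) =
      jacobiSym ((q : ℤ) ^ j * (R q b : ℤ)) (R q j) := by
    apply jacobiSym.mod_left'
    have h2 : (R q (j + b) : ℤ) = ((q : ℤ) ^ j * (R q b : ℤ)) + (R q j : ℤ) * 1 := by
      rw [R_add]
      push_cast
      ring
    rw [h2, Int.add_mul_emod_self_left]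
  rw [h1, jacobiSym.mul_left, jacobiSym.pow_left, J_q q hq j hj]
  simp

theorem J_coprime (q : ℕ) (hq : q % 4 = 3) (n : ℕ) : ∀ i j : ℕ, i + j ≤ n → i % 2 = 1 →
    j % 2 = 1 → Nat.Coprime i j → jacobiSym (R q i : ℤ) (R q j) = 1 := by
  induction n with
  | zero => intro i j h hi; omega
  | succ n ih =>
    intro i j hn hi hj hc
    -- general step for i > j
    have step : ∀ i j : ℕ, i + j ≤ n + 1 → i % 2 = 1 → j % 2 = 1 → Nat.Coprime i j → j < i →
        jacobiSym (R q i : ℤ) (R q j) = 1 := by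
      intro i j hn hi hj hc hlt
      obtain ⟨b, rfl⟩ : ∃ b, i = j + b := ⟨i - j, by omega⟩
      rw [J_period q hq j b hj]
      rcases lt_trichotomy b j with hb | hb | hb
      · obtain ⟨k, hk⟩ : ∃ k, j = k + b := ⟨j - b, by omega⟩
        rw [J_reflect q hq j b k hj hk]
        apply ih k j (by omega) (by omega) hj
        have h1 : Nat.Coprime b j := by
          rw [Nat.coprime_comm] at hc
          have := (Nat.coprime_add_self_right (m := j) (n := b)).1 (by rwa [add_comm] at hc)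
          exact this.symm
        have h2 : Nat.Coprime b k := by
          rw [hk] at h1
          simpa using h1
        have h3 : Nat.Coprime k (k + b) := by
          simpa using h2.symm
        rw [hk]
        exact h3
      · omega
      · obtain ⟨c, rfl⟩ : ∃ c, b = j + c := ⟨b - j, by omega⟩
        rw [J_period q hq j c hj]
        apply ih c j (by omega) (by omega) hj
        have : Nat.Coprime (j + (j + c)) j := hc
        simpa using this
    rcases lt_trichotomy i j with h | h | h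
    · rw [jacobiSym.quadratic_reciprocity_one_mod_four (R_mod4_odd q hq i hi)
        (Nat.odd_iff.mpr (by have := R_mod4_odd q hq j hj; omega))]
      exact step j i (by omega) hj hi hc.symm h
    · subst h
      have : i = 1 := by simpa using hc
      subst this
      simp [R_one]
    · exact step i j hn hi hj hc h

theorem J_R (q : ℕ) (hq : q % 4 = 3) (p : ℕ) (hp : p.Prime) (hp2 : p % 2 = 1) (i : ℕ)
    (hi : 0 < i) (hip : i < p) : jacobiSym (R q i : ℤ) (R q p) = 1 := by
  rcases Nat.even_or_odd i with he | ho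
  · obtain ⟨k, hk⟩ : ∃ k, p = k + i := ⟨p - i, by omega⟩
    rw [J_reflect q hq p i k hp2 hk]
    have he' := Nat.even_iff.mp he
    apply J_coprime q hq (k + p) k p le_rfl (by omega) hp2
    exact (Nat.coprime_of_lt_prime (by omega) (by omega) hp).symm
  · apply J_coprime q hq (i + p) i p le_rfl (Nat.odd_iff.mp ho) hp2
    exact (Nat.coprime_of_lt_prime (by omega) (by omega) hp).symm

/-- the product `(q - 1)(q ^ 2 - 1) ... (q ^ h - 1)` -/
def D (q h : ℕ) : ℤ := ∏ i ∈ range h, ((q : ℤ) ^ (i + 1) - 1)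

/-- in a field with a primitive `(2h+1)`-st root of unity `z`, the half product `D`
satisfies `z ^ e * (2h+1) = (-1)^h * D ^ 2` -/
theorem half_product {F : Type*} [Field F] (h : ℕ) (z : F) (hz : IsPrimitiveRoot z (2 * h + 1)) :
    z ^ (∑ i ∈ range h, (i + 1)) * ((2 * h + 1 : ℕ) : F) =
      (-1) ^ h * (∏ i ∈ range h, (z ^ (i + 1) - 1)) ^ 2 := by
  have h1 := hz.prod_one_sub_pow_eq_order
  have h2 : ∏ k ∈ range (2 * h), (1 - z ^ (k + 1)) =
      (∏ k ∈ range h, (1 - z ^ (k + 1))) * ∏ k ∈ range h, (1 - z ^ (2 * h - k)) := by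
    rw [two_mul, Finset.prod_range_add]
    congr 1
    rw [← Finset.prod_range_reflect]
    apply Finset.prod_congr rfl
    intro k hk
    rw [Finset.mem_range] at hk
    congr 2
    omega
  have h3 : z ^ (∑ i ∈ range h, (i + 1)) * ∏ k ∈ range h, (1 - z ^ (2 * h - k)) =
      ∏ k ∈ range h, (z ^ (k + 1) - 1) := by
    rw [← Finset.prod_pow_eq_pow_sum, ← Finset.prod_mul_distrib]
    apply Finset.prod_congr rfl
    intro k hk
    rw [Finset.mem_range] at hk
    rw [mul_sub, mul_one, ← pow_add, show k + 1 + (2 * h - k) = 2 * h + 1 by omega, hz.pow_eq_one]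
  have h4 : ∏ k ∈ range h, (1 - z ^ (k + 1)) = (-1) ^ h * ∏ k ∈ range h, (z ^ (k + 1) - 1) := by
    have : (-1 : F) ^ h = ∏ _k ∈ range h, (-1 : F) := by simp
    rw [this, ← Finset.prod_mul_distrib]
    apply Finset.prod_congr rfl
    intro k _
    ring
  have h5 : ((2 * h + 1 : ℕ) : F) = ∏ k ∈ range (2 * h), (1 - z ^ (k + 1)) := by
    rw [h1]; push_cast; ring
  rw [h5, h2, mul_comm (∏ k ∈ range h, (1 - z ^ (k + 1))), ← mul_assoc, h3, h4]
  ring

theorem mod4_of_primes (n : ℕ) : n ≠ 0 → (∀ r, r.Prime → r ∣ n → r % 4 = 1) → n % 4 = 1 := by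
  induction n using Nat.recOnMul with
  | zero => intro h; exact absurd rfl h
  | one => intro _ _; rfl
  | prime p hp => intro _ h; exact h p hp dvd_rfl
  | mul a b iha ihb =>
    intro hab h
    have ha : a ≠ 0 := fun h0 => hab (by simp [h0])
    have hb : b ≠ 0 := fun h0 => hab (by simp [h0])
    have h1 := iha ha (fun r hr hd => h r hr (hd.trans (Dvd.intro b rfl)))
    have h2 := ihb hb (fun r hr hd => h r hr (hd.trans (Dvd.intro_left a rfl)))
    rw [Nat.mul_mod, h1, h2]

theorem J_of_primes (c : ℤ) (n : ℕ) : n ≠ 0 →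
    (∀ r, r.Prime → r ∣ n → jacobiSym c r = 1) → jacobiSym c n = 1 := by
  induction n using Nat.recOnMul with
  | zero => intro h; exact absurd rfl h
  | one => intro _ _; exact jacobiSym.one_right c
  | prime p hp => intro _ h; exact h p hp dvd_rfl
  | mul a b iha ihb =>
    intro hab h
    have ha : a ≠ 0 := fun h0 => hab (by simp [h0])
    have hb : b ≠ 0 := fun h0 => hab (by simp [h0])
    have h1 := iha ha (fun r hr hd => h r hr (hd.trans (Dvd.intro b rfl)))
    have h2 := ihb hb (fun r hr hd => h r hr (hd.trans (Dvd.intro_left a rfl)))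
    rw [jacobiSym.mul_right' c ha hb, h1, h2, one_mul]

/-- facts about a prime `r` dividing the repunit `R_p(q)` when `p ^ q = 1` modulo `r` -/
theorem prime_facts (p q r : ℕ) (hp : p.Prime) (hr : r.Prime)
    (hrN : r ∣ R q p) (hrP : ((p : ℕ) : ZMod r) ^ q = 1) (hq0 : q ≠ 0) :
    IsPrimitiveRoot ((q : ℕ) : ZMod r) p ∧ r % p = 1 := by
  have : Fact r.Prime := ⟨hr⟩
  have : Fact p.Prime := ⟨hp⟩
  have hR : ((R q p : ℕ) : ZMod r) = 0 := (ZMod.natCast_eq_zero_iff _ _).mpr hrN
  have hgs : ∑ i ∈ range p, ((q : ℕ) : ZMod r) ^ i = 0 := by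
    have : ((R q p : ℕ) : ZMod r) = ∑ i ∈ range p, ((q : ℕ) : ZMod r) ^ i := by
      unfold R; push_cast; rfl
    rw [← this, hR]
  have hqp : ((q : ℕ) : ZMod r) ^ p = 1 := by
    have := mul_geom_sum ((q : ℕ) : ZMod r) p
    rw [hgs, mul_zero] at this
    exact (sub_eq_zero.mp this.symm)
  have hp0 : ((p : ℕ) : ZMod r) ≠ 0 := by
    intro h0
    rw [h0, zero_pow hq0] at hrP
    exact zero_ne_one hrP
  have hq1 : ((q : ℕ) : ZMod r) ≠ 1 := by
    intro h1
    rw [h1] at hgs
    simp at hgs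
    exact hp0 hgs
  have hord := orderOf_eq_prime hqp hq1
  have hprim : IsPrimitiveRoot ((q : ℕ) : ZMod r) p := by
    have := IsPrimitiveRoot.orderOf ((q : ℕ) : ZMod r)
    rwa [hord] at this
  refine ⟨hprim, ?_⟩
  have hq0' : ((q : ℕ) : ZMod r) ≠ 0 := by
    intro h0
    rw [h0, zero_pow hp.ne_zero] at hqp
    exact zero_ne_one hqp
  have hd : p ∣ r - 1 := by
    rw [← hord]
    exact orderOf_dvd_of_pow_eq_one (ZMod.pow_card_sub_one_eq_one hq0')
  obtain ⟨t, ht⟩ := hd
  have hr2 := hr.two_le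
  have : r = 1 + p * t := by omega
  rw [this, Nat.add_mul_mod_self_left, Nat.mod_eq_of_lt hp.one_lt]

/-- the main theorem -/
theorem result (p q : ℕ) (hp : p.Prime) (hq : q.Prime) (hpq : p < q) (hp4 : p % 4 = 3)
    (h : q % 4 = 1 ∨ jacobiSym (p : ℤ) ((q - 1) / 2) = -1) :
    ¬ ((q ^ p - 1) / (q - 1) ∣ (p ^ q - 1) / (p - 1)) := by
  intro hdvd
  have hp2 := hp.two_le
  have hq2 : 2 ≤ q := by omega
  have hN : (q ^ p - 1) / (q - 1) = R q p := (Nat.geomSum_eq hq2 p).symm
  have hM : (p ^ q - 1) / (p - 1) = R p q := (Nat.geomSum_eq hp2 q).symm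
  rw [hN, hM] at hdvd
  have hN0 : R q p ≠ 0 := by
    obtain ⟨k, hk⟩ : ∃ k, p = k + 1 := ⟨p - 1, by omega⟩
    rw [hk, R_succ]
    omega
  -- powers of p modulo a prime divisor
  have hpow : ∀ r, r.Prime → r ∣ R q p → ((p : ℕ) : ZMod r) ^ q = 1 := by
    intro r hr hrN
    have h1 : ((R p q : ℕ) : ZMod r) = 0 :=
      (ZMod.natCast_eq_zero_iff _ _).mpr (hrN.trans hdvd)
    have h2 := mul_geom_sum ((p : ℕ) : ZMod r) q
    have h3 : ((R p q : ℕ) : ZMod r) = ∑ i ∈ range q, ((p : ℕ) : ZMod r) ^ i := by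
      unfold R; push_cast; rfl
    rw [← h3, h1, mul_zero] at h2
    exact (sub_eq_zero.mp h2.symm)
  have hqodd : q % 2 = 1 := by
    rcases hq.eq_two_or_odd with h2 | h2
    · omega
    · exact h2
  -- every prime divisor of N is 1 mod 4
  have hr4 : ∀ r, r.Prime → r ∣ R q p → r % 4 = 1 := by
    intro r hr hrN
    have : Fact r.Prime := ⟨hr⟩
    obtain ⟨hprim, hrp⟩ := prime_facts p q r hp hr hrN (hpow r hr hrN) hq.ne_zero
    have hpq1 := hpow r hr hrN
    have hp0 : ((p : ℕ) : ZMod r) ≠ 0 := by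
      intro h0
      rw [h0, zero_pow hq.ne_zero] at hpq1
      exact zero_ne_one hpq1
    have hsq : IsSquare ((p : ℕ) : ZMod r) := by
      refine ⟨((p : ℕ) : ZMod r) ^ ((q + 1) / 2), ?_⟩
      rw [← pow_add, show (q + 1) / 2 + (q + 1) / 2 = q + 1 by omega, pow_succ, hpq1, one_mul]
    have hJ : jacobiSym (p : ℤ) r = 1 := by
      rw [← jacobiSym.legendreSym.to_jacobiSym]
      rw [legendreSym.eq_one_iff r (by exact_mod_cast hp0)]
      exact_mod_cast hsq
    have hrodd : r % 2 = 1 := by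
      rcases hr.eq_two_or_odd with h2 | h2
      · subst h2
        rw [Nat.mod_eq_of_lt (by omega)] at hrp
        omega
      · exact h2
    by_contra hne
    have hr3 : r % 4 = 3 := by omega
    have := jacobiSym.quadratic_reciprocity_three_mod_four hp4 hr3
    rw [hJ] at this
    have h2 : jacobiSym (r : ℤ) p = 1 := by
      rw [jacobiSym.mod_left' (a₂ := 1)]
      · exact jacobiSym.one_left p
      · have : ((r : ℤ) % (p : ℤ)) = ((r % p : ℕ) : ℤ) := by push_cast; rfl
        rw [this, hrp]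
        push_cast
        rw [Int.emod_eq_of_lt (by norm_num) (by exact_mod_cast hp.one_lt)]
    rw [h2] at this
    norm_num at this
  have hN4 := mod4_of_primes _ hN0 hr4
  -- case q = 1 mod 4 is impossible
  have hq3 : q % 4 = 3 := by
    by_contra hne
    have hq1 : q % 4 = 1 := by omega
    have : ∀ k, R q k % 4 = k % 4 := by
      intro k
      induction k with
      | zero => simp [R_zero]
      | succ n ih => rw [R_succ, Nat.add_mod, Nat.mul_mod, hq1, ih]; omega
    rw [this p] at hN4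
    omega
  have hJm : jacobiSym (p : ℤ) ((q - 1) / 2) = -1 := by
    rcases h with h | h
    · omega
    · exact h
  obtain ⟨h', hh⟩ : ∃ k, p = 2 * k + 1 := ⟨p / 2, by omega⟩
  have hhodd : h' % 2 = 1 := by omega
  -- 2D is a square modulo every prime divisor
  have h2D : jacobiSym (2 * D q h') (R q p) = 1 := by
    apply J_of_primes _ _ hN0
    intro r hr hrN
    have : Fact r.Prime := ⟨hr⟩
    obtain ⟨hprim, hrp⟩ := prime_facts p q r hp hr hrN (hpow r hr hrN) hq.ne_zero
    have hpq1 := hpow r hr hrN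
    have hqp1 := hprim.pow_eq_one
    have hp0 : ((p : ℕ) : ZMod r) ≠ 0 := by
      intro h0
      rw [h0, zero_pow hq.ne_zero] at hpq1
      exact zero_ne_one hpq1
    have hq0 : ((q : ℕ) : ZMod r) ≠ 0 := by
      intro h0
      rw [h0, zero_pow hp.ne_zero] at hqp1
      exact zero_ne_one hqp1
    have hhalf := half_product h' ((q : ℕ) : ZMod r) (by rw [← hh]; exact hprim)
    rw [← hh, (Nat.odd_iff.mpr hhodd).neg_one_pow] at hhalf
    set e := ∑ i ∈ range h', (i + 1) with he
    set d : ZMod r := ∏ i ∈ range h', (((q : ℕ) : ZMod r) ^ (i + 1) - 1) with hd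
    set w : ZMod r := ((q : ℕ) : ZMod r) ^ ((p + 1) / 4 * e) * ((p : ℕ) : ZMod r) ^ ((q + 1) / 4)
      with hw
    have hw4 : w ^ 4 = - d ^ 2 := by
      have h1 : w ^ 4 = ((((q : ℕ) : ZMod r) ^ p) * ((q : ℕ) : ZMod r)) ^ e *
          ((((p : ℕ) : ZMod r) ^ q) * ((p : ℕ) : ZMod r)) := by
        rw [hw, mul_pow, ← pow_mul, ← pow_mul, ← pow_succ, ← pow_succ, ← pow_mul]
        congr 2
        · rw [show (p + 1) / 4 * e * 4 = ((p + 1) / 4 * 4) * e by ring,
            show (p + 1) / 4 * 4 = p + 1 by omega]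
        · omega
      rw [h1, hqp1, hpq1, one_mul, one_mul, hhalf]
      ring
    have hw0 : w ≠ 0 := by
      rw [hw]
      exact mul_ne_zero (pow_ne_zero _ hq0) (pow_ne_zero _ hp0)
    have hd0 : d ≠ 0 := by
      intro h0
      rw [h0] at hw4
      apply hw0
      have : w ^ 4 = 0 := by rw [hw4]; ring
      exact pow_eq_zero_iff (by norm_num) |>.mp this
    have hr2 : (2 : ZMod r) ≠ 0 := by
      intro h0
      have h1 : ((2 : ℕ) : ZMod r) = 0 := by exact_mod_cast h0
      rw [ZMod.natCast_eq_zero_iff] at h1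
      have h2 := hr4 r hr hrN
      have h3 := Nat.le_of_dvd (by norm_num) h1
      have h4 := hr.two_le
      omega
    have hcast : ((2 * D q h' : ℤ) : ZMod r) = 2 * d := by
      unfold D
      push_cast
      rfl
    have hne : ((2 * D q h' : ℤ) : ZMod r) ≠ 0 := by
      rw [hcast]; exact mul_ne_zero hr2 hd0
    rw [← jacobiSym.legendreSym.to_jacobiSym, legendreSym.eq_one_iff r hne, hcast]
    -- explicit square root
    set x : ZMod r := w ^ 2 / d with hx
    have hx2 : x ^ 2 = -1 := by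
      rw [hx, div_pow, ← pow_mul, hw4]
      field_simp
    have hxd : x * d = w ^ 2 := by rw [hx]; field_simp
    refine ⟨x * w * (1 + x), ?_⟩
    have e1 : x * w * (1 + x) * (x * w * (1 + x)) = x ^ 2 * w ^ 2 * (1 + 2 * x + x ^ 2) := by ring
    rw [e1, hx2, ← hxd]
    have e2 : -1 * (x * d) * (1 + 2 * x + -1) = -2 * x ^ 2 * d := by ring
    rw [e2, hx2]
    ring
  -- evaluate by reciprocity
  have hNodd : Odd (R q p) := Nat.odd_iff.mpr (by omega)
  have hDJ : jacobiSym (D q h') (R q p) = jacobiSym ((q : ℤ) - 1) (R q p) ^ h' := by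
    unfold D
    have : ∀ n, n ≤ h' → jacobiSym (∏ i ∈ range n, ((q : ℤ) ^ (i + 1) - 1)) (R q p) =
        jacobiSym ((q : ℤ) - 1) (R q p) ^ n := by
      intro n
      induction n with
      | zero => intro _; simp
      | succ n ih =>
        intro hn
        rw [Finset.prod_range_succ, jacobiSym.mul_left, ih (by omega),
          pow_succ (jacobiSym ((q : ℤ) - 1) (R q p)),
          ← sub_one_mul_R, jacobiSym.mul_left, J_R q hq3 p hp (by omega) (n + 1) (by omega)
          (by omega), mul_one]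
    exact this h' le_rfl
  obtain ⟨m, hm⟩ : ∃ m, q = 2 * m + 1 := ⟨q / 2, by omega⟩
  have hmodd : m % 2 = 1 := by omega
  have hm' : (q - 1) / 2 = m := by omega
  rw [hm'] at hJm
  have hq1J : jacobiSym ((q : ℤ) - 1) (R q p) = jacobiSym 2 (R q p) * jacobiSym (p : ℤ) m := by
    have e1 : (q : ℤ) - 1 = 2 * (m : ℤ) := by rw [hm]; push_cast; ring
    rw [e1, jacobiSym.mul_left]
    congr 1
    rw [jacobiSym.quadratic_reciprocity_one_mod_four' (Nat.odd_iff.mpr hmodd) hN4]
    apply jacobiSym.mod_left'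
    -- N ≡ p mod m
    have hmodm : ∀ k, ((R q k : ℕ) : ℤ) % (m : ℤ) = (k : ℤ) % (m : ℤ) := by
      intro k
      have : ((R q k : ℕ) : ℤ) ≡ (k : ℤ) [ZMOD (m : ℤ)] := by
        induction k with
        | zero => simp [R_zero]
        | succ n ih =>
          rw [R_succ]
          push_cast
          have hqm : (q : ℤ) ≡ 1 [ZMOD (m : ℤ)] := by
            rw [hm]
            push_cast
            have : (2 * (m : ℤ) + 1) - 1 = (m : ℤ) * 2 := by ring
            exact (Int.modEq_iff_dvd.mpr ⟨-2, by ring⟩)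
          have h3 : (1 : ℤ) + (q : ℤ) * (R q n : ℤ) ≡ 1 + 1 * (n : ℤ) [ZMOD (m : ℤ)] :=
            Int.ModEq.add_left 1 (Int.ModEq.mul hqm ih)
          rw [one_mul, add_comm 1 (n : ℤ)] at h3
          exact h3
      exact this
    exact hmodm p
  have h2sq : jacobiSym 2 (R q p) * jacobiSym 2 (R q p) = 1 := by
    have hc : Int.gcd 2 (R q p : ℤ) = 1 := by
      have : Nat.Coprime 2 (R q p) := by
        rw [Nat.coprime_two_left]
        exact hNodd
      exact_mod_cast this
    have := jacobiSym.sq_one hc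
    rw [pow_two] at this
    exact this
  rw [jacobiSym.mul_left, hDJ, hq1J, hJm] at h2D
  have h2pm : jacobiSym 2 (R q p) = 1 ∨ jacobiSym 2 (R q p) = -1 := by
    rcases jacobiSym.trichotomy 2 (R q p) with h0 | h0 | h0
    · rw [h0] at h2sq; norm_num at h2sq
    · exact Or.inl h0
    · exact Or.inr h0
  have hho : Odd h' := Nat.odd_iff.mpr hhodd
  rcases h2pm with h0 | h0
  · rw [h0] at h2D
    simp [hho.neg_one_pow] at h2D
    try norm_num at h2D
  · rw [h0] at h2D
    norm_num at h2D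

end Pool.Agent.Results.MP_470117_nt.QuadraticObstruction
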